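import Mathlib

set_option autoImplicit false

namespace Pool.Agent.Results.MP_9bf48e_al.NotClosed

open Matrix

/-- For every order there is an irreducible elementary net of modules over the integers inside an
algebraic extension of the rationals that is not closed. -/
theorem result : ∃ (K : Type) (_ : Field K) (_ : Algebra ℚ K), Algebra.IsAlgebraic ℚ K ∧
    ∀ n : ℕ, 2 ≤ n → ∃ σ : Fin n → Fin n → Submodule ℤ K,
      (∀ i j, i ≠ j → σ i j ≠ ⊥) ∧
      (∀ i r j, i ≠ r → r ≠ j → i ≠ j → ∀ a ∈ σ i r, ∀ b ∈ σ r j, a * b ∈ σ i j) ∧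
      ∃ (i j : Fin n) (a : K), i ≠ j ∧ a ∉ σ i j ∧
        ∃ g ∈ Subgroup.closure {g : GL (Fin n) K | ∃ i j, i ≠ j ∧ ∃ a ∈ σ i j,
          (g : Matrix (Fin n) (Fin n) K) = 1 + single i j a},
          (g : Matrix (Fin n) (Fin n) K) = 1 + single i j a := by
  refine ⟨AlgebraicClosure ℚ, inferInstance, inferInstance, AlgebraicClosure.isAlgebraic ℚ,
    fun n hn => ?_⟩
  obtain ⟨θ, hθ⟩ := IsAlgClosed.exists_eq_mul_self (-1 : AlgebraicClosure ℚ)
  obtain ⟨M, hM⟩ : ∃ M : ℤ → ℤ → Submodule ℤ (AlgebraicClosure ℚ),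
      ∀ c d x, x ∈ M c d ↔ ∃ u v : ℤ, x = u * c + v * d * θ :=
    ⟨fun c d => Submodule.span ℤ {(c : AlgebraicClosure ℚ), d * θ}, fun c d x => by
      simp [Submodule.mem_span_pair, eq_comm, mul_assoc]⟩
  let p : Fin n := ⟨0, by omega⟩
  let q : Fin n := ⟨1, by omega⟩
  have hpq : p ≠ q := by simp [p, q]
  let T : ∀ i j : Fin n, i ≠ j → AlgebraicClosure ℚ → GL (Fin n) (AlgebraicClosure ℚ) :=
    fun i j h a => ⟨transvection i j a, transvection i j (-a),
      by rw [transvection_mul_transvection_same i j h, add_neg_cancel, transvection_zero],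
      by rw [transvection_mul_transvection_same i j h, neg_add_cancel, transvection_zero]⟩
  let σ : Fin n → Fin n → Submodule ℤ (AlgebraicClosure ℚ) := fun i j =>
    if i = p ∧ j = q then M 1 2 else if i = q ∧ j = p then M 1 1 else M 2 2
  have h1 : ∀ i j, M 2 2 ≤ σ i j := fun i j x hx => by
    obtain ⟨u, v, rfl⟩ := (hM _ _ _).1 hx
    simp only [σ]
    split_ifs <;> rw [hM]
    · exact ⟨2 * u, v, by push_cast; ring⟩
    · exact ⟨2 * u, 2 * v, by push_cast; ring⟩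
    · exact ⟨u, v, rfl⟩
  have h2 : ∀ i j, σ i j ≤ M 1 1 := fun i j x hx => by
    simp only [σ] at hx
    split_ifs at hx <;> obtain ⟨u, v, rfl⟩ := (hM _ _ _).1 hx <;> rw [hM]
    · exact ⟨u, 2 * v, by push_cast; ring⟩
    · exact ⟨u, v, rfl⟩
    · exact ⟨2 * u, 2 * v, by push_cast; ring⟩
  have h3 : ∀ a ∈ M 2 2, ∀ b ∈ M 1 1, a * b ∈ M 2 2 := fun a ha b hb => by
    obtain ⟨u, v, rfl⟩ := (hM _ _ _).1 ha
    obtain ⟨u', v', rfl⟩ := (hM _ _ _).1 hb
    exact (hM _ _ _).2 ⟨u * u' - v * v', u * v' + v * u', by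
      push_cast; linear_combination (-2 * v * v' : AlgebraicClosure ℚ) * hθ⟩
  have s1 : σ p q = M 1 2 := by simp [σ]
  have s2 : σ q p = M 1 1 := by simp [σ, hpq.symm]
  refine ⟨σ, fun i j _ h => ?_, fun i r j _ _ hij a ha b hb => h1 _ _ ?_, p, q, -θ, hpq, ?_,
    T q p hpq.symm (-1) * T p q hpq 1 * T q p hpq.symm θ * (T q p hpq.symm (-1) * T p q hpq 1)⁻¹,
    ?_, ?_⟩
  · have := h1 i j ((hM 2 2 2).2 ⟨1, 0, by simp⟩)
    rw [h, Submodule.mem_bot] at this
    exact two_ne_zero this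
  · by_cases c : σ i r = M 2 2
    · exact h3 a (c ▸ ha) b (h2 _ _ hb)
    · have : σ r j = M 2 2 := by
        simp only [σ] at c ⊢
        split_ifs at c ⊢ <;> simp_all
      exact mul_comm a b ▸ h3 b (this ▸ hb) a (h2 _ _ ha)
  · rw [s1, hM]
    rintro ⟨u, v, h⟩
    have : ((u * u + (2 * v + 1) * (2 * v + 1) : ℤ) : AlgebraicClosure ℚ) = 0 := by
      push_cast at h ⊢
      linear_combination (-u + (2 * v + 1) * θ) * h - (2 * v + 1) ^ 2 * hθ
    have h4 : u * u + (2 * v + 1) * (2 * v + 1) = 0 := by exact_mod_cast this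
    have h5 : 0 < (2 * v + 1) * (2 * v + 1) := mul_self_pos.2 (by omega)
    nlinarith [mul_self_nonneg u]
  · have a1 : T q p hpq.symm (-1) * T p q hpq 1 ∈ Subgroup.closure {g : GL (Fin n) _ |
        ∃ i j, i ≠ j ∧ ∃ a ∈ σ i j, (g : Matrix (Fin n) (Fin n) _) = 1 + single i j a} :=
      mul_mem (Subgroup.subset_closure ⟨q, p, hpq.symm, -1,
        s2 ▸ (hM _ _ _).2 ⟨-1, 0, by simp⟩, rfl⟩)
        (Subgroup.subset_closure ⟨p, q, hpq, 1, s1 ▸ (hM _ _ _).2 ⟨1, 0, by simp⟩, rfl⟩)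
    exact mul_mem (mul_mem a1 (Subgroup.subset_closure ⟨q, p, hpq.symm, θ,
      s2 ▸ (hM _ _ _).2 ⟨0, 1, by simp⟩, rfl⟩)) (inv_mem a1)
  · have : T q p hpq.symm (-1) * T p q hpq 1 * T q p hpq.symm θ =
        T p q hpq (-θ) * (T q p hpq.symm (-1) * T p q hpq 1) := by
      ext1
      simp [T, transvection, mul_add, add_mul, hpq, hpq.symm, ← single_neg]
      abel
    rw [this, mul_inv_cancel_right]
    rfl

end Pool.Agent.Results.MP_9bf48e_al.NotClosed
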